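import Pool.Agent.Lib.OQ.Chk

/-!
# Two curves that meet all lines through the disc (MP_721d21): certificates, offset 0
-/

set_option autoImplicit false
set_option maxRecDepth 100000

namespace Pool.Agent.OQ

/-- The tree for the offset `0`. -/
def tr0 : Tr :=
(.leaf 1 [2523520, 2589056, 2654592, 2720128])

theorem check_tr0 : check 0 tr0 [] = true := by decide +kernel

end Pool.Agent.OQ
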