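import Pool.Agent.Lib.OQ.Snd
import Pool.Agent.Lib.OQ.T0
import Pool.Agent.Lib.OQ.T1
import Pool.Agent.Lib.OQ.T2
import Pool.Agent.Lib.OQ.T3
import Pool.Agent.Lib.OQ.T4
import Pool.Agent.Lib.OQ.T5

/-!
# Two curves that meet all lines through the disc (MP_721d21): the linear inequality
-/

set_option autoImplicit false

namespace Pool.Agent.OQ

theorem cert {x : ℕ → ℝ} {c : ℕ → Bool} (F : Fct x c) (s : ℕ) (hs : s < 6) :
    6 + √3 ≤ ∑ j ∈ Finset.range 24, (oc s j : ℝ) * x j := by
  interval_cases s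
  · exact check_sound F 0 tr0 [] (by simp) check_tr0
  · exact check_sound F 1 tr1 [] (by simp) check_tr1
  · exact check_sound F 2 tr2 [] (by simp) check_tr2
  · exact check_sound F 3 tr3 [] (by simp) check_tr3
  · exact check_sound F 4 tr4 [] (by simp) check_tr4
  · exact check_sound F 5 tr5 [] (by simp) check_tr5

end Pool.Agent.OQ
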