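import Mathlib

/-!
# Two curves that meet all lines through the disc (MP_721d21): the checker for the linear certificates

Variables: `x (12 i + k)`, `i < 2`, `k < 12`, is the support value of the curve `i` in the direction `k`;
`x 24 = 1` is the constant.  Coefficients are pairs `(a, b)`, with the value `a + b √3`.
-/

set_option autoImplicit false

namespace Pool.Agent.OQ

/-- Trees of certificates. -/
inductive Tr : Type
  | leaf (D : ℕ) (c : List ℕ) : Tr
  | node (k : ℕ) (l r : Tr) : Tr

/-- The rows of the constraints. -/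
def row (id : ℕ) : List (ℕ × ℤ × ℤ) :=
  if id < 24 then
    [(12 * (id / 12) + (id % 12 + 11) % 12, 1, 0), (12 * (id / 12) + (id % 12 + 1) % 12, 1, 0),
      (12 * (id / 12) + id % 12, 0, -1)]
  else if id < 36 then
    [(12 * ((id - 24) / 6) + (id - 24) % 6, 1, 0), (12 * ((id - 24) / 6) + (id - 24) % 6 + 6, 1, 0)]
  else if id < 42 then
    [(id - 36, 1, 0), (id - 36 + 6, 1, 0), (id - 36 + 12, 1, 0), (id - 36 + 18, 1, 0), (24, -2, 0)]
  else if id < 66 then
    [(12 * ((id - 42) % 2) + (id - 42) / 2, 1, 0), (24, -1, 0)]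
  else
    [(12 * (1 - (id - 66) % 2) + (id - 66) / 2, 1, 0), (12 * ((id - 66) % 2) + (id - 66) / 2 + 6, 1, 0)]

/-- The constraints that may be used after the choices `asg`. -/
def ok (asg : List (ℕ × Bool)) (id : ℕ) : Bool :=
  if id < 42 then true
  else if id < 66 then asg.contains ((id - 42) / 2, (id - 42) % 2 == 1)
  else if id < 78 then
    asg.contains ((id - 66) / 2, (id - 66) % 2 == 1) && asg.contains ((id - 66) / 2 + 6, (id - 66) % 2 == 0)
  else false

/-- `0 ≤ a + b √3`. -/
def nng (a b : ℤ) : Bool :=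
  (decide (0 ≤ a) && decide (0 ≤ b)) || (decide (0 ≤ a) && decide (3 * (b * b) ≤ a * a)) ||
    (decide (0 ≤ b) && decide (a * a ≤ 3 * (b * b)))

/-- Parts of the code of an entry of a certificate. -/
def cid (n : ℕ) : ℕ := n / 65536
def ca (n : ℕ) : ℤ := (n / 256 % 256 : ℕ) - (128 : ℤ)
def cb (n : ℕ) : ℤ := (n % 256 : ℕ) - (128 : ℤ)

/-- The scaled row of an entry. -/
def srow (n : ℕ) : List (ℕ × ℤ × ℤ) :=
  (row (cid n)).map (fun e => (e.1, ca n * e.2.1 + 3 * (cb n * e.2.2), ca n * e.2.2 + cb n * e.2.1))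

/-- The total coefficient of the variable `j`. -/
def tot : List (ℕ × ℤ × ℤ) → ℕ → ℤ × ℤ
  | [], _ => (0, 0)
  | e :: L, j => if e.1 = j then (e.2.1 + (tot L j).1, e.2.2 + (tot L j).2) else tot L j

/-- The coefficients of the objective function. -/
def oc (s j : ℕ) : ℤ :=
  if (if j < 12 then (j % 6 == 0 || j % 6 == 1) else (j % 6 == s % 6 || j % 6 == (s + 1) % 6)) then 0 else 1

/-- The check of a leaf. -/
def leafok (s : ℕ) (asg : List (ℕ × Bool)) (D : ℕ) (c : List ℕ) (L : List (ℕ × ℤ × ℤ)) : Bool :=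
  decide (0 < D) && c.all (fun n => ok asg (cid n) && nng (ca n) (cb n)) &&
    L.all (fun e => decide (e.1 < 25)) &&
    (List.range 24).all (fun j => decide ((tot L j).1 = D * oc s j) && decide ((tot L j).2 = 0)) &&
    nng (-6 * D - (tot L 24).1) (-1 * D - (tot L 24).2)

/-- The check of a tree. -/
def check (s : ℕ) : Tr → List (ℕ × Bool) → Bool
  | Tr.leaf D c, asg => leafok s asg D c (c.flatMap srow)
  | Tr.node k l r, asg => check s l ((k, false) :: asg) && check s r ((k, true) :: asg)

end Pool.Agent.OQ
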