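import Mathlib

/-!
# Two curves that meet all lines through the disc (MP_721d21): projections and support values
-/

set_option autoImplicit false

namespace Pool.Agent.OQ

open MeasureTheory Set

noncomputable section

/-- The Euclidean plane. -/
abbrev E2 : Type := EuclideanSpace ℝ (Fin 2)

/-- The product of `x` with the unit vector `(cos θ, sin θ)`. -/
def pj (θ : ℝ) (x : E2) : ℝ := x 0 * Real.cos θ + x 1 * Real.sin θ

/-- The support value of the curve `γ` in the direction `θ`: the maximum of `pj θ (γ t)`, `t ∈ [0, 1]`. -/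
def sp (γ : ℝ → E2) (θ : ℝ) : ℝ := sSup ((fun t => pj θ (γ t)) '' Icc 0 1)

theorem pj_sub (θ : ℝ) (x y : E2) : pj θ (x - y) = pj θ x - pj θ y := by
  simp only [pj, PiLp.sub_apply]; ring

theorem pj_neg (θ : ℝ) (x : E2) : pj θ (-x) = -pj θ x := by
  simp only [pj, PiLp.neg_apply]; ring

theorem pj_add_pi (θ : ℝ) (x : E2) : pj (θ + Real.pi) x = -pj θ x := by
  simp only [pj, Real.cos_add_pi, Real.sin_add_pi]; ring

theorem abs_pj_le (θ : ℝ) (x : E2) : |pj θ x| ≤ ‖x‖ := by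
  apply abs_le_of_sq_le_sq _ (norm_nonneg x)
  rw [EuclideanSpace.norm_sq_eq, Fin.sum_univ_two]
  simp only [pj, Real.norm_eq_abs, sq_abs]
  have h := Real.sin_sq_add_cos_sq θ
  have e : x 0 ^ 2 + x 1 ^ 2 = (x 0 * Real.cos θ + x 1 * Real.sin θ) ^ 2 +
      (x 0 * Real.sin θ - x 1 * Real.cos θ) ^ 2 := by
    linear_combination (-(x 0 ^ 2) - x 1 ^ 2) * h
  rw [e]
  nlinarith [sq_nonneg (x 0 * Real.sin θ - x 1 * Real.cos θ)]

theorem continuous_pj (θ : ℝ) : Continuous (pj θ) := by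
  unfold pj; fun_prop

theorem continuous_pj_left (x : E2) : Continuous (fun θ => pj θ x) := by
  unfold pj; fun_prop

theorem continuousOn_pj {γ : ℝ → E2} (hγ : ContinuousOn γ (Icc 0 1)) (θ : ℝ) :
    ContinuousOn (fun t => pj θ (γ t)) (Icc 0 1) := (continuous_pj θ).comp_continuousOn hγ

theorem isCompact_im {γ : ℝ → E2} (hγ : ContinuousOn γ (Icc 0 1)) (θ : ℝ) :
    IsCompact ((fun t => pj θ (γ t)) '' Icc 0 1) := isCompact_Icc.image_of_continuousOn (continuousOn_pj hγ θ)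

theorem le_sp {γ : ℝ → E2} (hγ : ContinuousOn γ (Icc 0 1)) (θ : ℝ) {t : ℝ} (ht : t ∈ Icc (0 : ℝ) 1) :
    pj θ (γ t) ≤ sp γ θ := le_csSup (isCompact_im hγ θ).bddAbove (mem_image_of_mem _ ht)

theorem exists_sp {γ : ℝ → E2} (hγ : ContinuousOn γ (Icc 0 1)) (θ : ℝ) :
    ∃ t ∈ Icc (0 : ℝ) 1, pj θ (γ t) = sp γ θ :=
  (isCompact_im hγ θ).sSup_mem ((nonempty_Icc.2 zero_le_one).image _)

/-- `- sp γ (θ + π)` is the minimum of `pj θ (γ t)`. -/
theorem neg_sp_le {γ : ℝ → E2} (hγ : ContinuousOn γ (Icc 0 1)) (θ : ℝ) {t : ℝ} (ht : t ∈ Icc (0 : ℝ) 1) :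
    -sp γ (θ + Real.pi) ≤ pj θ (γ t) := by
  have := le_sp hγ (θ + Real.pi) ht
  rw [pj_add_pi] at this
  linarith

/-- **Var.** For every `ε` a continuous `π`-periodic function `V`, above `2 * width - |projection of the chord| - ε`, with integral at
most twice the length.  PROOF.  `γ` is uniformly continuous on `[0, 1]`: `N ≥ 1` with `‖γ t - γ t'‖ ≤ ε/4` for `|t - t'| ≤ 1/N`.
`V θ = ∑_(i < N) |pj θ (γ ((i+1)/N) - γ (i/N))|`.  Continuous, `π`-periodic (`pj_add_pi`).  Lower bound: let `f = fun t => pj θ (γ t)`,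
`s, t ∈ [0, 1]` with `f t = sp γ θ`, `f s = - sp γ (θ + π)` (`exists_sp`), vertices `a/N`, `b/N` within `1/N` of `t`, `s`:
`|f (a/N) - f t| ≤ ε/4`, `|f (b/N) - f s| ≤ ε/4`; the sum `V θ` over `range N` is (if `b ≤ a`) at least
`|f(b/N) - f 0| + |f(a/N) - f(b/N)| + |f 1 - f(a/N)|` (telescoping, `Finset.abs_sum_le_sum_abs`), in both cases at least
`2 (f(a/N) - f(b/N)) - |f 1 - f 0| ≥ 2 (f t - f s) - ε - |f 1 - f 0|`.  Integral: `∫_0^π |pj θ x| dθ = 2 ‖x‖` (see `OD/Int.lean`; here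
`pj θ x = ‖x‖ cos (θ - φ)`), and `∑ ‖γ ((i+1)/N) - γ (i/N)‖ ≤ (eVariationOn γ (Icc 0 1)).toReal` (`eVariationOn.sum_le`). -/
def S_Var : Prop := ∀ γ : ℝ → E2, ContinuousOn γ (Icc 0 1) → eVariationOn γ (Icc 0 1) ≠ ⊤ → ∀ ε : ℝ, 0 < ε →
  ∃ V : ℝ → ℝ, Continuous V ∧ (∀ θ, V (θ + Real.pi) = V θ) ∧
    (∀ θ, 2 * (sp γ θ + sp γ (θ + Real.pi)) - |pj θ (γ 1 - γ 0)| - ε ≤ V θ) ∧
    ∫ θ in (0 : ℝ)..Real.pi, V θ ≤ 2 * (eVariationOn γ (Icc 0 1)).toReal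

/-- **Sgn.** PROOF.  `p k = pj (θ + k π / 6) v`, `p (k+1) = √3 p k - p (k-1)`, `p 6 = - p 0`.  There is `m < 6` with `p m ≥ 0 ≥ p (m+1)`
or `p m ≤ 0 ≤ p (m+1)` (otherwise all products `p m * p (m+1)` are positive and `p 0`, `p 6` have the same sign).  First case,
`c = p m`, `d = p (m+1)`: `p (m-1) = √3 c - d`, `p (m-2) = 2 c - √3 d`, `p (m-3) = √3 c - 2 d`, `p (m-4) = c - √3 d`, all `≥ 0`; the
sum of the six absolute values is `(4 + 2 √3) (c - d) = 2 (p (m-2) + p (m-3))`; indices modulo 6 (`p (k+6) = - p k`), `s = m - 3`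
modulo 6.  Second case: `- v`. -/
def S_Sgn : Prop := ∀ (θ : ℝ) (v : E2), ∃ s : ℕ, s < 6 ∧ ∑ k ∈ Finset.range 6, |pj (θ + k * (Real.pi / 6)) v| ≤
  2 * (|pj (θ + s * (Real.pi / 6)) v| + |pj (θ + (s + 1) * (Real.pi / 6)) v|)

end

end Pool.Agent.OQ
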