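import Pool.Agent.Lib.OQ.Sgn
import Pool.Agent.Lib.OQ.Cert

/-!
# Two curves that meet all lines through the disc (MP_721d21): the inequality for twelve directions
-/

set_option autoImplicit false

namespace Pool.Agent.OQ

open MeasureTheory Set

noncomputable section

/-- The width of the curve `γ` in the direction `θ`. -/
def wd (γ : ℝ → E2) (θ : ℝ) : ℝ := sp γ θ + sp γ (θ + Real.pi)

namespace GeoM

theorem sp_conv {γ : ℝ → E2} (hγ : ContinuousOn γ (Icc 0 1)) (φ : ℝ) :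
    √3 * sp γ φ ≤ sp γ (φ - Real.pi / 6) + sp γ (φ + Real.pi / 6) := by
  obtain ⟨t, ht, h⟩ := exists_sp hγ φ
  have h1 := SgnM.pj_step (φ - Real.pi / 6) (γ t)
  rw [show φ - Real.pi / 6 + 2 * (Real.pi / 6) = φ + Real.pi / 6 by ring,
    show φ - Real.pi / 6 + Real.pi / 6 = φ by ring] at h1
  have h2 := le_sp hγ (φ - Real.pi / 6) ht
  have h3 := le_sp hγ (φ + Real.pi / 6) ht
  rw [← h]
  linarith

theorem wd_nonneg {γ : ℝ → E2} (hγ : ContinuousOn γ (Icc 0 1)) (φ : ℝ) : 0 ≤ wd γ φ := by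
  have h0 : (0 : ℝ) ∈ Icc (0 : ℝ) 1 := ⟨le_rfl, zero_le_one⟩
  have h1 := le_sp hγ φ h0
  have h2 := neg_sp_le hγ φ h0
  unfold wd
  linarith

theorem chord_le {γ : ℝ → E2} (hγ : ContinuousOn γ (Icc 0 1)) (φ : ℝ) :
    |pj φ (γ 1 - γ 0)| ≤ wd γ φ := by
  have h0 : (0 : ℝ) ∈ Icc (0 : ℝ) 1 := ⟨le_rfl, zero_le_one⟩
  have h1 : (1 : ℝ) ∈ Icc (0 : ℝ) 1 := ⟨zero_le_one, le_rfl⟩
  have a1 := le_sp hγ φ h0
  have a2 := neg_sp_le hγ φ h0
  have b1 := le_sp hγ φ h1
  have b2 := neg_sp_le hγ φ h1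
  unfold wd
  rw [pj_sub, abs_le]
  constructor <;> linarith

theorem pj_two_pi (φ : ℝ) (n : ℕ) (x : E2) : pj (φ + n * (2 * Real.pi)) x = pj φ x := by
  simp only [pj, Real.cos_add_nat_mul_two_pi, Real.sin_add_nat_mul_two_pi]

theorem sp_two_pi (γ : ℝ → E2) (φ : ℝ) (n : ℕ) : sp γ (φ + n * (2 * Real.pi)) = sp γ φ := by
  simp only [sp, pj_two_pi]

/-- Support values in the directions `θ + k π / 6`. -/
def hh (γ : ℝ → E2) (θ : ℝ) (k : ℕ) : ℝ := sp γ (θ + k * (Real.pi / 6))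

theorem hh_add (γ : ℝ → E2) (θ : ℝ) (k : ℕ) : hh γ θ (k + 12) = hh γ θ k := by
  have h := sp_two_pi γ (θ + k * (Real.pi / 6)) 1
  unfold hh
  rw [← h]
  congr 1
  push_cast
  ring

theorem hh_mod (γ : ℝ → E2) (θ : ℝ) (k : ℕ) : hh γ θ (k % 12) = hh γ θ k := by
  have hp : Function.Periodic (hh γ θ) 12 := hh_add γ θ
  exact hp.map_mod_nat k

/-- Widths in the directions `θ + k π / 6`. -/
def ww (γ : ℝ → E2) (θ : ℝ) (k : ℕ) : ℝ := wd γ (θ + k * (Real.pi / 6))

theorem hh_wd (γ : ℝ → E2) (θ : ℝ) (k : ℕ) : hh γ θ k + hh γ θ (k + 6) = ww γ θ k := by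
  unfold hh ww wd
  congr 2
  push_cast
  ring

theorem ww_add (γ : ℝ → E2) (θ : ℝ) (k : ℕ) : ww γ θ (k + 6) = ww γ θ k := by
  rw [← hh_wd, ← hh_wd, show k + 6 + 6 = k + 12 by ring, hh_add]
  ring

/-- The vector of the variables. -/
def xx (g : Bool → ℝ → E2) (θ : ℝ) (j : ℕ) : ℝ :=
  if j = 24 then 1 else hh (g (decide (12 ≤ j))) θ (j % 12)

theorem xx_eq (g : Bool → ℝ → E2) (θ : ℝ) (b : Bool) (k : ℕ) (hk : k < 12) :
    xx g θ (12 * b.toNat + k) = hh (g b) θ k := by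
  unfold xx
  cases b with
  | false =>
    rw [if_neg (by simp; omega)]
    simp only [Bool.toNat_false, mul_zero, zero_add]
    rw [Nat.mod_eq_of_lt hk, show decide (12 ≤ k) = false by simp; omega]
  | true =>
    rw [if_neg (by simp; omega)]
    simp only [Bool.toNat_true, mul_one]
    rw [show (12 + k) % 12 = k by omega, show decide (12 ≤ 12 + k) = true by simp]

open Classical in
/-- The choice of the curve that meets the tangent line of the direction `θ + k π / 6`. -/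
def cc (g : Bool → ℝ → E2) (θ : ℝ) (k : ℕ) : Bool :=
  decide (∃ t ∈ Icc (0 : ℝ) 1, pj (θ + k * (Real.pi / 6)) (g true t) = 1)

variable {g : Bool → ℝ → E2} (hg : ∀ b, ContinuousOn (g b) (Icc 0 1))
  (hc : ∀ θ p : ℝ, |p| ≤ 1 → ∃ b, ∃ t ∈ Icc (0 : ℝ) 1, pj θ (g b t) = p)

include hc in
theorem cc_spec (θ : ℝ) (k : ℕ) :
    ∃ t ∈ Icc (0 : ℝ) 1, pj (θ + k * (Real.pi / 6)) (g (cc g θ k) t) = 1 := by
  classical
  by_cases h : ∃ t ∈ Icc (0 : ℝ) 1, pj (θ + k * (Real.pi / 6)) (g true t) = 1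
  · have e : cc g θ k = true := by unfold cc; exact decide_eq_true h
    rw [e]; exact h
  · have e : cc g θ k = false := by unfold cc; exact decide_eq_false h
    rw [e]
    obtain ⟨b, t, ht, hb⟩ := hc (θ + k * (Real.pi / 6)) 1 (by norm_num)
    cases b with
    | true => exact absurd ⟨t, ht, hb⟩ h
    | false => exact ⟨t, ht, hb⟩

include hg hc in
theorem hh_cov (θ : ℝ) (k : ℕ) : 1 ≤ hh (g (cc g θ k)) θ k := by
  obtain ⟨t, ht, h⟩ := cc_spec hc θ k
  have := le_sp (hg (cc g θ k)) (θ + k * (Real.pi / 6)) ht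
  rw [h] at this
  exact this

include hg hc in
theorem hh_ovl (θ : ℝ) (k : ℕ) (hne : cc g θ k ≠ cc g θ (k + 6)) :
    0 ≤ hh (g (cc g θ (k + 6))) θ k + hh (g (cc g θ k)) θ (k + 6) := by
  obtain ⟨t, ht, h⟩ := cc_spec hc θ k
  obtain ⟨s, hs, h'⟩ := cc_spec hc θ (k + 6)
  have hang : θ + ((k + 6 : ℕ) : ℝ) * (Real.pi / 6) = θ + k * (Real.pi / 6) + Real.pi := by
    push_cast; ring
  rw [hang, pj_add_pi] at h'
  unfold hh
  rw [hang]
  generalize cc g θ k = i at *
  generalize cc g θ (k + 6) = j at *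
  generalize θ + (k : ℝ) * (Real.pi / 6) = φ at *
  by_contra hcon
  push Not at hcon
  have b1 := le_sp (hg j) φ hs
  have a1 := neg_sp_le (hg i) φ ht
  rw [h] at a1
  obtain ⟨b, r, hr, hb⟩ := hc φ ((sp (g j) φ - sp (g i) (φ + Real.pi)) / 2) (by
    rw [abs_le]; constructor <;> linarith)
  have hbij : b = i ∨ b = j := by
    cases b <;> cases i <;> cases j <;> simp at hne ⊢
  rcases hbij with rfl | rfl
  · have := neg_sp_le (hg b) φ hr
    linarith
  · have := le_sp (hg b) φ hr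
    linarith

include hg hc in
theorem fct (θ : ℝ) : Fct (xx g θ) (cc g θ) := by
  have hx : ∀ (b : Bool) (k : ℕ), k < 12 → xx g θ (12 * b.toNat + k) = hh (g b) θ k :=
    fun b k hk => xx_eq g θ b k hk
  have hxi : ∀ i < 2, ∃ b : Bool, b.toNat = i := by
    intro i hi
    interval_cases i
    · exact ⟨false, rfl⟩
    · exact ⟨true, rfl⟩
  have hcv := hh_cov hg hc θ
  have hov := hh_ovl hg hc θ
  refine ⟨by unfold xx; rw [if_pos rfl], ?_, ?_, ?_, ?_, ?_⟩
  · intro i hi k hk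
    obtain ⟨b, rfl⟩ := hxi i hi
    rw [hx b _ (Nat.mod_lt _ (by norm_num)), hx b _ (Nat.mod_lt _ (by norm_num)), hx b k hk,
      hh_mod, hh_mod, ← hh_add (g b) θ k, ← hh_add (g b) θ (k + 1)]
    have := sp_conv (hg b) (θ + ((k + 12 : ℕ) : ℝ) * (Real.pi / 6))
    unfold hh
    rw [show θ + ((k + 11 : ℕ) : ℝ) * (Real.pi / 6) =
      θ + ((k + 12 : ℕ) : ℝ) * (Real.pi / 6) - Real.pi / 6 by push_cast; ring,
      show θ + ((k + 1 + 12 : ℕ) : ℝ) * (Real.pi / 6) =
      θ + ((k + 12 : ℕ) : ℝ) * (Real.pi / 6) + Real.pi / 6 by push_cast; ring]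
    linarith
  · intro i hi k hk
    obtain ⟨b, rfl⟩ := hxi i hi
    rw [hx b k (by omega), show 12 * b.toNat + k + 6 = 12 * b.toNat + (k + 6) by ring,
      hx b (k + 6) (by omega), hh_wd]
    exact wd_nonneg (hg b) _
  · intro k hk
    have e1 := hx false k (by omega)
    have e2 := hx false (k + 6) (by omega)
    have e3 := hx true k (by omega)
    have e4 := hx true (k + 6) (by omega)
    simp only [Bool.toNat_false, Bool.toNat_true, mul_zero, mul_one, zero_add] at e1 e2 e3 e4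
    rw [e1, e2, show k + 12 = 12 + k by ring, e3, show k + 18 = 12 + (k + 6) by ring, e4]
    have w0 : 0 ≤ ww (g false) θ k := wd_nonneg (hg false) (θ + k * (Real.pi / 6))
    have w1 : 0 ≤ ww (g true) θ k := wd_nonneg (hg true) (θ + k * (Real.pi / 6))
    rw [← hh_wd] at w0 w1
    have c1 := hcv k
    have c2 := hcv (k + 6)
    have c3 := hov k
    cases h1 : cc g θ k <;> cases h2 : cc g θ (k + 6) <;> rw [h1] at c1 c3 <;> rw [h2] at c2 c3
    · linarith
    · have := c3 (by decide)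
      linarith
    · have := c3 (by decide)
      linarith
    · linarith
  · intro k hk
    rw [hx _ k hk]
    linarith [hcv k]
  · intro k hk hne
    rw [hx _ k (by omega), show 12 * (cc g θ k).toNat + k + 6 = 12 * (cc g θ k).toNat + (k + 6) by ring,
      hx _ (k + 6) (by omega)]
    exact hov k hne

include hg hc in
/-- The inequality for the widths, first curve without the directions `0`, `1`. -/
theorem wd_ineq0 (θ : ℝ) (s : ℕ) (hs : s < 6) :
    6 + √3 ≤ ∑ k ∈ Finset.range 6, ww (g false) θ k + ∑ k ∈ Finset.range 6, ww (g true) θ k -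
      (ww (g false) θ 0 + ww (g false) θ 1) - (ww (g true) θ s + ww (g true) θ (s + 1)) := by
  have h := cert (fct hg hc θ) s hs
  have w6 : ww (g true) θ 6 = ww (g true) θ 0 := ww_add (g true) θ 0
  have e : ∀ (b : Bool) (k : ℕ), k < 6 → ww (g b) θ k =
      xx g θ (12 * b.toNat + k) + xx g θ (12 * b.toNat + (k + 6)) := by
    intro b k hk
    rw [xx_eq g θ b k (by omega), xx_eq g θ b (k + 6) (by omega), hh_wd]
  have f0 := e false 0 (by norm_num)
  have f1 := e false 1 (by norm_num)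
  have f2 := e false 2 (by norm_num)
  have f3 := e false 3 (by norm_num)
  have f4 := e false 4 (by norm_num)
  have f5 := e false 5 (by norm_num)
  have t0 := e true 0 (by norm_num)
  have t1 := e true 1 (by norm_num)
  have t2 := e true 2 (by norm_num)
  have t3 := e true 3 (by norm_num)
  have t4 := e true 4 (by norm_num)
  have t5 := e true 5 (by norm_num)
  simp only [Bool.toNat_false, Bool.toNat_true, mul_zero, mul_one, zero_add] at f0 f1 f2 f3 f4 f5 t0 t1 t2 t3 t4 t5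
  norm_num only at f0 f1 f2 f3 f4 f5 t0 t1 t2 t3 t4 t5
  simp only [Finset.sum_range_succ, Finset.sum_range_zero, zero_add] at h ⊢
  interval_cases s <;> norm_num [oc] at h ⊢ <;> linarith

/-- Sums over six consecutive directions. -/
theorem sum_shift (w : ℕ → ℝ) (hw : ∀ k, w (k + 6) = w k) (m : ℕ) :
    ∑ k ∈ Finset.range 6, w (m + k) = ∑ k ∈ Finset.range 6, w k := by
  induction m with
  | zero => simp
  | succ m ih =>
    rw [← ih]
    simp only [Finset.sum_range_succ, Finset.sum_range_zero, zero_add]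
    have h := hw m
    rw [show m + 1 + 0 = m + 1 by ring, show m + 1 + 1 = m + 2 by ring, show m + 1 + 2 = m + 3 by ring,
      show m + 1 + 3 = m + 4 by ring, show m + 1 + 4 = m + 5 by ring, show m + 1 + 5 = m + 6 by ring, h,
      show m + 0 = m from rfl]
    ring

include hg hc in
theorem wd_ineq (θ : ℝ) (s s' : ℕ) (hs : s < 6) (hs' : s' < 6) :
    6 + √3 ≤ ∑ k ∈ Finset.range 6, ww (g false) θ k + ∑ k ∈ Finset.range 6, ww (g true) θ k -
      (ww (g false) θ s + ww (g false) θ (s + 1)) - (ww (g true) θ s' + ww (g true) θ (s' + 1)) := by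
  have h := wd_ineq0 hg hc (θ + s * (Real.pi / 6)) ((s' + 6 - s) % 6) (Nat.mod_lt _ (by norm_num))
  have e : ∀ (b : Bool) (k : ℕ), ww (g b) (θ + s * (Real.pi / 6)) k = ww (g b) θ (s + k) := by
    intro b k
    unfold ww
    congr 1
    push_cast
    ring
  simp only [e] at h
  rw [sum_shift _ (ww_add (g false) θ) s, sum_shift _ (ww_add (g true) θ) s] at h
  have hp : Function.Periodic (ww (g true) θ) 6 := ww_add (g true) θ
  have e1 : ww (g true) θ (s + (s' + 6 - s) % 6) = ww (g true) θ s' := by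
    rw [← hp.map_mod_nat, ← hp.map_mod_nat s']
    congr 1
    omega
  have e2 : ww (g true) θ (s + ((s' + 6 - s) % 6 + 1)) = ww (g true) θ (s' + 1) := by
    rw [← hp.map_mod_nat, ← hp.map_mod_nat (s' + 1)]
    congr 1
    omega
  rw [e1, e2, add_zero] at h
  exact h

end GeoM

open GeoM in
/-- The inequality for six directions. -/
theorem dirP {g : Bool → ℝ → E2} (hg : ∀ b, ContinuousOn (g b) (Icc 0 1))
    (hc : ∀ θ p : ℝ, |p| ≤ 1 → ∃ b, ∃ t ∈ Icc (0 : ℝ) 1, pj θ (g b t) = p) (θ : ℝ) :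
    12 + 2 * √3 ≤ ∑ k ∈ Finset.range 6, (2 * wd (g false) (θ + k * (Real.pi / 6)) -
      |pj (θ + k * (Real.pi / 6)) (g false 1 - g false 0)|) +
      ∑ k ∈ Finset.range 6, (2 * wd (g true) (θ + k * (Real.pi / 6)) -
      |pj (θ + k * (Real.pi / 6)) (g true 1 - g true 0)|) := by
  have key : ∀ b : Bool, ∃ s : ℕ, s < 6 ∧ 2 * ∑ k ∈ Finset.range 6, ww (g b) θ k -
      2 * (ww (g b) θ s + ww (g b) θ (s + 1)) ≤
      ∑ k ∈ Finset.range 6, (2 * wd (g b) (θ + k * (Real.pi / 6)) -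
      |pj (θ + k * (Real.pi / 6)) (g b 1 - g b 0)|) := by
    intro b
    obtain ⟨s, hs, h⟩ := sgnP θ (g b 1 - g b 0)
    refine ⟨s, hs, ?_⟩
    rw [Finset.sum_sub_distrib, ← Finset.mul_sum]
    have h1 := chord_le (hg b) (θ + s * (Real.pi / 6))
    have h2 := chord_le (hg b) (θ + (s + 1 : ℕ) * (Real.pi / 6))
    have h3 : θ + ((s : ℝ) + 1) * (Real.pi / 6) = θ + ((s + 1 : ℕ) : ℝ) * (Real.pi / 6) := by
      push_cast; ring
    rw [h3] at h
    unfold ww
    linarith
  obtain ⟨s, hs, h⟩ := key false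
  obtain ⟨s', hs', h'⟩ := key true
  have := wd_ineq hg hc θ s s' hs hs'
  linarith

end

end Pool.Agent.OQ
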