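import Pool.Agent.Lib.OQ.Defs

/-!
# Two curves that meet all lines through the disc (MP_721d21): six projections of a vector
-/

set_option autoImplicit false

namespace Pool.Agent.OQ

open MeasureTheory Set

namespace SgnM

theorem cos_step (θ : ℝ) : Real.cos (θ + 2 * (Real.pi / 6)) =
    √3 * Real.cos (θ + Real.pi / 6) - Real.cos θ := by
  have h3 : √3 * √3 = (3 : ℝ) := Real.mul_self_sqrt (by norm_num)
  rw [show θ + 2 * (Real.pi / 6) = θ + Real.pi / 3 by ring, Real.cos_add, Real.cos_add,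
    Real.cos_pi_div_three, Real.sin_pi_div_three, Real.cos_pi_div_six, Real.sin_pi_div_six]
  linear_combination (-(Real.cos θ) / 2) * h3

theorem sin_step (θ : ℝ) : Real.sin (θ + 2 * (Real.pi / 6)) =
    √3 * Real.sin (θ + Real.pi / 6) - Real.sin θ := by
  have h3 : √3 * √3 = (3 : ℝ) := Real.mul_self_sqrt (by norm_num)
  rw [show θ + 2 * (Real.pi / 6) = θ + Real.pi / 3 by ring, Real.sin_add, Real.sin_add,
    Real.cos_pi_div_three, Real.sin_pi_div_three, Real.cos_pi_div_six, Real.sin_pi_div_six]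
  linear_combination (-(Real.sin θ) / 2) * h3

theorem pj_step (θ : ℝ) (x : E2) : pj (θ + 2 * (Real.pi / 6)) x =
    √3 * pj (θ + Real.pi / 6) x - pj θ x := by
  simp only [pj]
  rw [cos_step, sin_step]
  ring

theorem key6 (q : ℕ → ℝ) (hq : ∀ k, q (k + 2) = √3 * q (k + 1) - q k) (h : q 0 * q 1 ≤ 0) :
    |q 0| + |q 1| + |q 2| + |q 3| + |q 4| + |q 5| ≤ 2 * (|q 3| + |q 4|) := by
  have h3 : √3 * √3 = (3 : ℝ) := Real.mul_self_sqrt (by norm_num)
  have h0 : 0 ≤ √3 := Real.sqrt_nonneg 3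
  have e2 : q 2 = √3 * q 1 - q 0 := hq 0
  have e3 : q 3 = 2 * q 1 - √3 * q 0 := by
    have := hq 1
    rw [this, e2]; linear_combination (q 1) * h3
  have e4 : q 4 = √3 * q 1 - 2 * q 0 := by
    have := hq 2
    rw [this, e3, e2]; linear_combination (-(q 0)) * h3
  have e5 : q 5 = q 1 - √3 * q 0 := by
    have := hq 3
    rw [this, e4, e3]; linear_combination (q 1) * h3
  rcases mul_nonpos_iff.1 h with ⟨a, b⟩ | ⟨a, b⟩
  · have p0 : 0 ≤ √3 * q 0 := mul_nonneg h0 a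
    have p1 : √3 * q 1 ≤ 0 := mul_nonpos_of_nonneg_of_nonpos h0 b
    rw [abs_of_nonneg a, abs_of_nonpos b, abs_of_nonpos (show q 2 ≤ 0 by linarith),
      abs_of_nonpos (show q 3 ≤ 0 by linarith), abs_of_nonpos (show q 4 ≤ 0 by linarith),
      abs_of_nonpos (show q 5 ≤ 0 by linarith)]
    linarith
  · have p0 : √3 * q 0 ≤ 0 := mul_nonpos_of_nonneg_of_nonpos h0 a
    have p1 : 0 ≤ √3 * q 1 := mul_nonneg h0 b
    rw [abs_of_nonpos a, abs_of_nonneg b, abs_of_nonneg (show 0 ≤ q 2 by linarith),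
      abs_of_nonneg (show 0 ≤ q 3 by linarith), abs_of_nonneg (show 0 ≤ q 4 by linarith),
      abs_of_nonneg (show 0 ≤ q 5 by linarith)]
    linarith

end SgnM

open SgnM in
theorem sgnP : S_Sgn := by
  intro θ v
  have hp : ∀ k : ℕ, pj (θ + (k + 2 : ℕ) * (Real.pi / 6)) v =
      √3 * pj (θ + (k + 1 : ℕ) * (Real.pi / 6)) v - pj (θ + k * (Real.pi / 6)) v := by
    intro k
    have := pj_step (θ + k * (Real.pi / 6)) v
    rw [show θ + (k + 2 : ℕ) * (Real.pi / 6) = θ + k * (Real.pi / 6) + 2 * (Real.pi / 6) by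
      push_cast; ring, show θ + (k + 1 : ℕ) * (Real.pi / 6) = θ + k * (Real.pi / 6) + Real.pi / 6 by
      push_cast; ring]
    exact this
  have h6 : ∀ k : ℕ, pj (θ + (k + 6 : ℕ) * (Real.pi / 6)) v = -pj (θ + k * (Real.pi / 6)) v := by
    intro k
    rw [← pj_add_pi]
    congr 1
    push_cast
    ring
  have hgoal : ∀ s : ℕ, (θ + ((s : ℝ) + 1) * (Real.pi / 6)) = θ + ((s + 1 : ℕ) : ℝ) * (Real.pi / 6) := by
    intro s; push_cast; ring
  simp only [hgoal]
  generalize hP : (fun k : ℕ => pj (θ + (k : ℝ) * (Real.pi / 6)) v) = p at *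
  have hpk : ∀ k : ℕ, pj (θ + (k : ℝ) * (Real.pi / 6)) v = p k := fun k => by rw [← hP]
  simp only [hpk] at hp h6 ⊢
  have ha : ∀ k, |p (k + 6)| = |p k| := fun k => by rw [h6, abs_neg]
  have hm : ∀ m, p m * p (m + 1) ≤ 0 →
      |p m| + |p (m + 1)| + |p (m + 2)| + |p (m + 3)| + |p (m + 4)| + |p (m + 5)| ≤
        2 * (|p (m + 3)| + |p (m + 4)|) := by
    intro m h
    exact key6 (fun k => p (m + k)) (fun k => hp (m + k)) h
  have a0 := ha 0
  have a1 := ha 1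
  have a2 := ha 2
  have a3 := ha 3
  have a4 := ha 4
  norm_num at a0 a1 a2 a3 a4
  simp only [Finset.sum_range_succ, Finset.sum_range_zero, zero_add]
  by_cases c0 : p 0 * p 1 ≤ 0
  · exact ⟨3, by norm_num, by have := hm 0 c0; norm_num at this ⊢; linarith⟩
  by_cases c1 : p 1 * p 2 ≤ 0
  · exact ⟨4, by norm_num, by have := hm 1 c1; norm_num at this ⊢; linarith⟩
  by_cases c2 : p 2 * p 3 ≤ 0
  · exact ⟨5, by norm_num, by have := hm 2 c2; norm_num at this ⊢; linarith⟩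
  by_cases c3 : p 3 * p 4 ≤ 0
  · exact ⟨0, by norm_num, by have := hm 3 c3; norm_num at this ⊢; linarith⟩
  by_cases c4 : p 4 * p 5 ≤ 0
  · exact ⟨1, by norm_num, by have := hm 4 c4; norm_num at this ⊢; linarith⟩
  by_cases c5 : p 5 * p 6 ≤ 0
  · exact ⟨2, by norm_num, by have := hm 5 c5; norm_num at this ⊢; linarith⟩
  exfalso
  have e6 : p 6 = -p 0 := h6 0
  push Not at c0 c1 c2 c3 c4 c5
  have hall : 0 < (p 0 * p 1) * (p 1 * p 2) * (p 2 * p 3) * (p 3 * p 4) * (p 4 * p 5) * (p 5 * p 6) := by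
    positivity
  have : (p 0 * p 1) * (p 1 * p 2) * (p 2 * p 3) * (p 3 * p 4) * (p 4 * p 5) * (p 5 * p 6) =
      -(p 0 * p 1 * p 2 * p 3 * p 4 * p 5) ^ 2 := by
    rw [e6]; ring
  rw [this] at hall
  nlinarith [sq_nonneg (p 0 * p 1 * p 2 * p 3 * p 4 * p 5)]

end Pool.Agent.OQ
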