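import Pool.Agent.Lib.OQ.Chk

/-!
# Two curves that meet all lines through the disc (MP_721d21): soundness of the checker
-/

set_option autoImplicit false

namespace Pool.Agent.OQ

/-- The value `a + b √3`. -/
noncomputable def vl (a b : ℤ) : ℝ := a + b * √3

/-- The value of a list of terms. -/
noncomputable def ev (x : ℕ → ℝ) (L : List (ℕ × ℤ × ℤ)) : ℝ :=
  (L.map (fun e => vl e.2.1 e.2.2 * x e.1)).sum

/-- The facts about the support values. -/
structure Fct (x : ℕ → ℝ) (c : ℕ → Bool) : Prop where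
  one : x 24 = 1
  conv : ∀ i < 2, ∀ k < 12,
    0 ≤ x (12 * i + (k + 11) % 12) + x (12 * i + (k + 1) % 12) - √3 * x (12 * i + k)
  wid : ∀ i < 2, ∀ k < 6, 0 ≤ x (12 * i + k) + x (12 * i + k + 6)
  two : ∀ k < 6, 0 ≤ x k + x (k + 6) + x (k + 12) + x (k + 18) - 2
  cov : ∀ k < 12, 0 ≤ x (12 * (c k).toNat + k) - 1
  ovl : ∀ k < 6, c k ≠ c (k + 6) →
    0 ≤ x (12 * (c (k + 6)).toNat + k) + x (12 * (c k).toNat + k + 6)

theorem vl_add (a b a' b' : ℤ) : vl (a + a') (b + b') = vl a b + vl a' b' := by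
  simp only [vl]; push_cast; ring

theorem vl_mul (a b p q : ℤ) : vl (a * p + 3 * (b * q)) (a * q + b * p) = vl a b * vl p q := by
  have h : √3 * √3 = (3 : ℝ) := Real.mul_self_sqrt (by norm_num)
  simp only [vl]; push_cast
  linear_combination (-(b : ℝ) * q) * h

theorem nng_sound (a b : ℤ) (h : nng a b = true) : 0 ≤ vl a b := by
  have h3 : √3 * √3 = (3 : ℝ) := Real.mul_self_sqrt (by norm_num)
  have h0 : 0 ≤ √3 := Real.sqrt_nonneg 3
  simp only [nng, Bool.or_eq_true, Bool.and_eq_true, decide_eq_true_eq] at h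
  simp only [vl]
  rcases h with (⟨ha, hb⟩ | ⟨ha, hb⟩) | ⟨ha, hb⟩
  · have ha' : (0 : ℝ) ≤ a := by exact_mod_cast ha
    have hb' : (0 : ℝ) ≤ b := by exact_mod_cast hb
    positivity
  · have ha' : (0 : ℝ) ≤ a := by exact_mod_cast ha
    have hb' : (3 : ℝ) * (b * b) ≤ a * a := by exact_mod_cast hb
    have h1 : ((b : ℝ) * √3) ^ 2 ≤ (a : ℝ) ^ 2 := by nlinarith
    have h2 := abs_le_of_sq_le_sq h1 ha'
    linarith [(abs_le.1 h2).1]
  · have ha' : (0 : ℝ) ≤ b := by exact_mod_cast ha
    have hb' : (a : ℝ) * a ≤ 3 * (b * b) := by exact_mod_cast hb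
    have h1 : (a : ℝ) ^ 2 ≤ ((b : ℝ) * √3) ^ 2 := by nlinarith
    have h2 := abs_le_of_sq_le_sq h1 (by positivity)
    linarith [(abs_le.1 h2).1]

theorem ev_nil (x : ℕ → ℝ) : ev x [] = 0 := rfl

theorem ev_cons (x : ℕ → ℝ) (e : ℕ × ℤ × ℤ) (L : List (ℕ × ℤ × ℤ)) :
    ev x (e :: L) = vl e.2.1 e.2.2 * x e.1 + ev x L := by simp [ev]

theorem ev_append (x : ℕ → ℝ) (L M : List (ℕ × ℤ × ℤ)) : ev x (L ++ M) = ev x L + ev x M := by
  simp [ev]

theorem ev_scale (x : ℕ → ℝ) (a b : ℤ) (L : List (ℕ × ℤ × ℤ)) :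
    ev x (L.map (fun e => (e.1, a * e.2.1 + 3 * (b * e.2.2), a * e.2.2 + b * e.2.1))) =
      vl a b * ev x L := by
  induction L with
  | nil => simp [ev]
  | cons e L ih =>
    rw [List.map_cons, ev_cons, ev_cons, ih, vl_mul]
    ring

theorem ev_flatMap (x : ℕ → ℝ) (c : List ℕ) (h : ∀ n ∈ c, 0 ≤ ev x (srow n)) :
    0 ≤ ev x (c.flatMap srow) := by
  induction c with
  | nil => simp [ev]
  | cons n c ih =>
    rw [List.flatMap_cons, ev_append]
    exact add_nonneg (h n (by simp)) (ih (fun m hm => h m (List.mem_cons_of_mem _ hm)))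

theorem ev_eq_tot (x : ℕ → ℝ) (L : List (ℕ × ℤ × ℤ)) (h : ∀ e ∈ L, e.1 < 25) :
    ev x L = ∑ j ∈ Finset.range 25, vl (tot L j).1 (tot L j).2 * x j := by
  induction L with
  | nil => simp [ev, tot, vl]
  | cons e L ih =>
    rw [ev_cons, ih (fun m hm => h m (List.mem_cons_of_mem _ hm))]
    have he : e.1 ∈ Finset.range 25 := Finset.mem_range.2 (h e (by simp))
    have h1 : ∀ j, vl (tot (e :: L) j).1 (tot (e :: L) j).2 * x j =
        (if e.1 = j then vl e.2.1 e.2.2 * x j else 0) + vl (tot L j).1 (tot L j).2 * x j := by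
      intro j
      by_cases hj : e.1 = j
      · simp only [tot, hj, if_true]
        rw [vl_add]; ring
      · simp only [tot, hj, if_false]
        ring
    simp only [h1]
    rw [Finset.sum_add_distrib, Finset.sum_ite_eq, if_pos he]

theorem row_nonneg {x : ℕ → ℝ} {c : ℕ → Bool} (F : Fct x c) (asg : List (ℕ × Bool))
    (ha : ∀ p ∈ asg, c p.1 = p.2) (id : ℕ) (h : ok asg id = true) : 0 ≤ ev x (row id) := by
  unfold ok at h
  unfold row
  split_ifs at h with h1 h2 h3
  · by_cases h24 : id < 24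
    · rw [if_pos h24]
      have := F.conv (id / 12) (by omega) (id % 12) (by omega)
      simp only [ev, vl, List.map_cons, List.map_nil, List.sum_cons, List.sum_nil]
      push_cast
      linarith
    · rw [if_neg h24]
      by_cases h36 : id < 36
      · rw [if_pos h36]
        have := F.wid ((id - 24) / 6) (by omega) ((id - 24) % 6) (by omega)
        simp only [ev, vl, List.map_cons, List.map_nil, List.sum_cons, List.sum_nil]
        push_cast
        linarith
      · rw [if_neg h36, if_pos h1]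
        have := F.two (id - 36) (by omega)
        simp only [ev, vl, List.map_cons, List.map_nil, List.sum_cons, List.sum_nil, F.one]
        push_cast
        linarith
  · rw [if_neg (by omega), if_neg (by omega), if_neg h1, if_pos h2]
    have hm := List.contains_iff_mem.1 h
    have hc := ha _ hm
    simp only at hc
    have := F.cov ((id - 42) / 2) (by omega)
    have ht : (c ((id - 42) / 2)).toNat = (id - 42) % 2 := by
      rw [hc]
      rcases Nat.mod_two_eq_zero_or_one (id - 42) with h0 | h0 <;> rw [h0] <;> rfl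
    rw [ht] at this
    simp only [ev, vl, List.map_cons, List.map_nil, List.sum_cons, List.sum_nil, F.one]
    push_cast
    linarith
  · rw [if_neg (by omega), if_neg (by omega), if_neg h1, if_neg h2]
    rw [Bool.and_eq_true] at h
    have hc1 := ha _ (List.contains_iff_mem.1 h.1)
    have hc2 := ha _ (List.contains_iff_mem.1 h.2)
    simp only at hc1 hc2
    have ht1 : (c ((id - 66) / 2)).toNat = (id - 66) % 2 := by
      rw [hc1]
      rcases Nat.mod_two_eq_zero_or_one (id - 66) with h0 | h0 <;> rw [h0] <;> rfl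
    have ht2 : (c ((id - 66) / 2 + 6)).toNat = 1 - (id - 66) % 2 := by
      rw [hc2]
      rcases Nat.mod_two_eq_zero_or_one (id - 66) with h0 | h0 <;> rw [h0] <;> rfl
    have := F.ovl ((id - 66) / 2) (by omega) (by
      rw [hc1, hc2]
      rcases Nat.mod_two_eq_zero_or_one (id - 66) with h0 | h0 <;> rw [h0] <;> decide)
    rw [ht1, ht2] at this
    simp only [ev, vl, List.map_cons, List.map_nil, List.sum_cons, List.sum_nil]
    push_cast
    linarith

theorem leaf_sound {x : ℕ → ℝ} {c : ℕ → Bool} (F : Fct x c) (s : ℕ) (asg : List (ℕ × Bool))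
    (ha : ∀ p ∈ asg, c p.1 = p.2) (D : ℕ) (ct : List ℕ)
    (h : leafok s asg D ct (ct.flatMap srow) = true) :
    6 + √3 ≤ ∑ j ∈ Finset.range 24, (oc s j : ℝ) * x j := by
  simp only [leafok, Bool.and_eq_true, decide_eq_true_eq, List.all_eq_true, List.mem_range] at h
  obtain ⟨⟨⟨⟨hD, h1⟩, h2⟩, h3⟩, h4⟩ := h
  have e1 : 0 ≤ ev x (ct.flatMap srow) := by
    apply ev_flatMap
    intro n hn
    rw [srow, ev_scale]
    exact mul_nonneg (nng_sound _ _ (h1 n hn).2) (row_nonneg F asg ha _ (h1 n hn).1)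
  rw [ev_eq_tot x _ (fun e he => h2 e he), Finset.sum_range_succ] at e1
  have e2 : ∑ j ∈ Finset.range 24, vl (tot (ct.flatMap srow) j).1 (tot (ct.flatMap srow) j).2 * x j =
      D * ∑ j ∈ Finset.range 24, (oc s j : ℝ) * x j := by
    rw [Finset.mul_sum]
    apply Finset.sum_congr rfl
    intro j hj
    obtain ⟨a1, a2⟩ := h3 j (Finset.mem_range.1 hj)
    rw [a1, a2, vl]
    push_cast
    ring
  have e3 := nng_sound _ _ h4
  rw [e2, F.one] at e1
  simp only [vl] at e1 e3
  push_cast at e1 e3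
  have hD' : (0 : ℝ) < D := by exact_mod_cast hD
  have : (D : ℝ) * (6 + √3) ≤ D * ∑ j ∈ Finset.range 24, (oc s j : ℝ) * x j := by nlinarith
  exact le_of_mul_le_mul_left this hD'

theorem check_sound {x : ℕ → ℝ} {c : ℕ → Bool} (F : Fct x c) (s : ℕ) (t : Tr) :
    ∀ asg : List (ℕ × Bool), (∀ p ∈ asg, c p.1 = p.2) → check s t asg = true →
      6 + √3 ≤ ∑ j ∈ Finset.range 24, (oc s j : ℝ) * x j := by
  induction t with
  | leaf D ct => exact fun asg ha h => leaf_sound F s asg ha D ct h
  | node k l r ihl ihr =>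
    intro asg ha h
    simp only [check, Bool.and_eq_true] at h
    cases hk : c k with
    | false =>
      exact ihl _ (fun p hp => by
        rcases List.mem_cons.1 hp with rfl | hp
        · exact hk
        · exact ha p hp) h.1
    | true =>
      exact ihr _ (fun p hp => by
        rcases List.mem_cons.1 hp with rfl | hp
        · exact hk
        · exact ha p hp) h.2

end Pool.Agent.OQ
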