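import Pool.Agent.Lib.OQ.Defs

/-!
# Two curves: total variation of the projections of a curve
-/

set_option autoImplicit false

namespace Pool.Agent.OQ

open MeasureTheory Set

namespace VarM

theorem int_abs_sin (φ : ℝ) : ∫ θ in (0 : ℝ)..Real.pi, |Real.sin (θ - φ)| = 2 := by
  have hper : Function.Periodic (fun θ => |Real.sin θ|) Real.pi := by
    intro θ
    simp only [Real.sin_add_pi, abs_neg]
  have h1 : ∫ θ in (0 : ℝ)..Real.pi, |Real.sin (θ - φ)| =
      ∫ θ in (0 - φ)..(Real.pi - φ), |Real.sin θ| :=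
    intervalIntegral.integral_comp_sub_right (fun θ => |Real.sin θ|) φ
  have h2 := hper.intervalIntegral_add_eq (0 - φ) 0
  rw [h1, show Real.pi - φ = 0 - φ + Real.pi by ring, h2, zero_add]
  have h3 : ∫ θ in (0 : ℝ)..Real.pi, |Real.sin θ| = ∫ θ in (0 : ℝ)..Real.pi, Real.sin θ := by
    apply intervalIntegral.integral_congr
    intro θ hθ
    rw [uIcc_of_le Real.pi_pos.le] at hθ
    exact abs_of_nonneg (Real.sin_nonneg_of_mem_Icc hθ)
  rw [h3, integral_sin, Real.cos_zero, Real.cos_pi]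
  norm_num

theorem polar (x : E2) : ∃ φ : ℝ, ∀ θ, pj θ x = ‖x‖ * Real.sin (θ - φ) := by
  have hn : ‖(⟨x 0, x 1⟩ : ℂ)‖ = ‖x‖ := by
    rw [EuclideanSpace.norm_eq, Fin.sum_univ_two, Complex.norm_def, Complex.normSq_mk]
    congr 1
    simp only [Real.norm_eq_abs, sq_abs]
    ring
  set z : ℂ := ⟨x 0, x 1⟩ with hz
  have h0 : x 0 = ‖x‖ * Real.cos (Complex.arg z) := by
    rw [← hn, Complex.norm_mul_cos_arg]
  have h1 : x 1 = ‖x‖ * Real.sin (Complex.arg z) := by
    rw [← hn, Complex.norm_mul_sin_arg]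
  refine ⟨Complex.arg z - Real.pi / 2, fun θ => ?_⟩
  have e : θ - (Complex.arg z - Real.pi / 2) = (θ - Complex.arg z) + Real.pi / 2 := by ring
  rw [e, Real.sin_add_pi_div_two, Real.cos_sub, pj, h0, h1]
  ring

theorem int_abs_pj (x : E2) : ∫ θ in (0 : ℝ)..Real.pi, |pj θ x| = 2 * ‖x‖ := by
  obtain ⟨φ, hφ⟩ := polar x
  have h1 : ∀ θ, |pj θ x| = ‖x‖ * |Real.sin (θ - φ)| := by
    intro θ
    rw [hφ θ, abs_mul, abs_of_nonneg (norm_nonneg x)]
  simp only [h1]
  rw [intervalIntegral.integral_const_mul, int_abs_sin]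
  ring

theorem tele (F : ℕ → ℝ) {a b N : ℕ} (hab : a ≤ b) (hbN : b ≤ N) :
    2 * |F b - F a| - |F N - F 0| ≤ ∑ i ∈ Finset.range N, |F (i + 1) - F i| := by
  have hd : ∀ m n : ℕ, m ≤ n → |F n - F m| ≤ ∑ i ∈ Finset.Ico m n, |F (i + 1) - F i| := by
    intro m n h
    have h1 := dist_le_Ico_sum_dist F h
    simp only [Real.dist_eq] at h1
    rw [abs_sub_comm (F n) (F m)]
    refine h1.trans (le_of_eq ?_)
    exact Finset.sum_congr rfl fun i _ => abs_sub_comm _ _
  have e : ∑ i ∈ Finset.range N, |F (i + 1) - F i| =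
      ∑ i ∈ Finset.Ico 0 a, |F (i + 1) - F i| + ∑ i ∈ Finset.Ico a b, |F (i + 1) - F i| +
      ∑ i ∈ Finset.Ico b N, |F (i + 1) - F i| := by
    rw [Finset.sum_Ico_consecutive _ (Nat.zero_le a) hab,
      Finset.sum_Ico_consecutive _ (Nat.zero_le b) hbN, Nat.Ico_zero_eq_range]
  rw [e]
  have h1 := hd 0 a (Nat.zero_le a)
  have h2 := hd a b hab
  have h3 := hd b N hbN
  have h4 : |F b - F a| ≤ |F N - F 0| + |F a - F 0| + |F N - F b| := by
    have : F b - F a = (F N - F 0) - (F a - F 0) - (F N - F b) := by ring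
    rw [this]
    exact (abs_sub _ _).trans (add_le_add (abs_sub _ _) le_rfl)
  linarith

theorem tele2 (F : ℕ → ℝ) {a b N : ℕ} (ha : a ≤ N) (hb : b ≤ N) :
    2 * (F a - F b) - |F N - F 0| ≤ ∑ i ∈ Finset.range N, |F (i + 1) - F i| := by
  rcases le_total a b with h | h
  · have h1 := tele F h hb
    have h2 := neg_abs_le (F b - F a)
    linarith
  · have h1 := tele F h ha
    have h2 := le_abs_self (F a - F b)
    linarith

end VarM

open VarM

theorem varP : S_Var := by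
  intro γ hγ hfin ε hε
  have huc : UniformContinuousOn γ (Icc 0 1) := isCompact_Icc.uniformContinuousOn_of_continuous hγ
  rw [Metric.uniformContinuousOn_iff] at huc
  obtain ⟨δ, hδ, hδ'⟩ := huc (ε / 4) (by positivity)
  obtain ⟨N0, hN0⟩ := exists_nat_one_div_lt hδ
  set N : ℕ := N0 + 1 with hN
  have hNpos : (0 : ℝ) < N := by rw [hN]; positivity
  have hNδ : 1 / (N : ℝ) < δ := by
    rw [hN]; push_cast; exact hN0
  have hmem : ∀ i : ℕ, i ≤ N → (i : ℝ) / N ∈ Icc (0 : ℝ) 1 := by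
    intro i hi
    refine ⟨by positivity, ?_⟩
    rw [div_le_one hNpos]
    exact_mod_cast hi
  have hnear : ∀ t ∈ Icc (0 : ℝ) 1, ∃ a : ℕ, a ≤ N ∧ dist (γ ((a : ℝ) / N)) (γ t) < ε / 4 := by
    intro t ht
    have htN : 0 ≤ t * N := mul_nonneg ht.1 hNpos.le
    have hle : ⌊t * N⌋₊ ≤ N := by
      apply Nat.floor_le_of_le
      nlinarith [ht.2]
    refine ⟨⌊t * N⌋₊, hle, hδ' _ (hmem _ hle) _ ht ?_⟩
    have h1 := Nat.floor_le htN
    have h2 := Nat.lt_floor_add_one (t * N)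
    have h3 : ((⌊t * N⌋₊ : ℕ) : ℝ) / N ≤ t := by
      rw [div_le_iff₀ hNpos]; exact h1
    have h4 : t < ((⌊t * N⌋₊ : ℕ) : ℝ) / N + 1 / N := by
      rw [← add_div, lt_div_iff₀ hNpos]; exact h2
    rw [Real.dist_eq, abs_sub_comm, abs_of_nonneg (by linarith)]
    linarith
  refine ⟨fun θ => ∑ i ∈ Finset.range N, |pj θ (γ (((i + 1 : ℕ) : ℝ) / N) - γ ((i : ℝ) / N))|,
    ?_, ?_, ?_, ?_⟩
  · exact continuous_finsetSum _ fun i _ => (continuous_pj_left _).abs
  · intro θ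
    simp only [pj_add_pi, abs_neg]
  · intro θ
    obtain ⟨t, ht, hft⟩ := exists_sp hγ θ
    obtain ⟨s, hs, hfs⟩ := exists_sp hγ (θ + Real.pi)
    rw [pj_add_pi] at hfs
    obtain ⟨a, haN, ha⟩ := hnear t ht
    obtain ⟨b, hbN, hb⟩ := hnear s hs
    have h1 := tele2 (fun i => pj θ (γ ((i : ℝ) / N))) haN hbN
    have ea : |pj θ (γ ((a : ℝ) / N)) - pj θ (γ t)| ≤ ε / 4 := by
      rw [← pj_sub]
      refine (abs_pj_le _ _).trans ?_
      rw [← dist_eq_norm]
      exact ha.le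
    have eb : |pj θ (γ ((b : ℝ) / N)) - pj θ (γ s)| ≤ ε / 4 := by
      rw [← pj_sub]
      refine (abs_pj_le _ _).trans ?_
      rw [← dist_eq_norm]
      exact hb.le
    have eN : (fun i : ℕ => pj θ (γ ((i : ℝ) / N))) N - (fun i : ℕ => pj θ (γ ((i : ℝ) / N))) 0 =
        pj θ (γ 1 - γ 0) := by
      simp only [pj_sub]
      rw [div_self hNpos.ne']
      simp
    rw [eN] at h1
    simp only [pj_sub] at h1 ⊢
    have h2 := abs_le.1 ea
    have h3 := abs_le.1 eb
    linarith [h1, h2.1, h3.2]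
  · have hi : ∀ i ∈ Finset.range N, IntervalIntegrable
        (fun θ => |pj θ (γ (((i + 1 : ℕ) : ℝ) / N) - γ ((i : ℝ) / N))|) volume 0 Real.pi :=
      fun i _ => ((continuous_pj_left _).abs).intervalIntegrable _ _
    rw [intervalIntegral.integral_finsetSum hi]
    simp only [int_abs_pj]
    rw [← Finset.mul_sum]
    refine mul_le_mul_of_nonneg_left ?_ (by norm_num)
    have hmono : MonotoneOn (fun i : ℕ => (i : ℝ) / N) (Iic N) := by
      intro i _ j _ hij
      have : (i : ℝ) ≤ j := by exact_mod_cast hij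
      exact div_le_div_of_nonneg_right this hNpos.le
    have h1 := eVariationOn.sum_le_of_monotoneOn_Iic (f := γ) (s := Icc (0 : ℝ) 1) (n := N) hmono
      (fun i hi => hmem i hi)
    have h2 := ENNReal.toReal_mono hfin h1
    rw [ENNReal.toReal_sum (fun i _ => edist_ne_top _ _)] at h2
    refine (le_of_eq ?_).trans h2
    refine Finset.sum_congr rfl fun i _ => ?_
    rw [← dist_edist, dist_eq_norm]

end Pool.Agent.OQ
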